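import Mathlib

namespace Pool.Agent.Results.MP_c4e411_nt.Counter

open Finset

def σ {n : ℕ} (i : ℕ) (x : Fin n → ℕ) : ℕ := ∑ s ∈ powersetCard i univ, ∏ j ∈ s, x j

theorem result : ∃ (n : ℕ) (x : Fin n → ℕ) (m : ℕ), 4 ≤ n ∧ (∀ i, 0 < x i) ∧ Monotone x ∧
    m = σ 3 x ∧ m = σ n x ∧
    ¬ (m : ℚ) ≤ (3021 * n ^ 6 - 77575 * n ^ 5 + 920361 * n ^ 4 - 6235705 * n ^ 3 +
      24764202 * n ^ 2 - 53664304 * n + 48986640) / 12 :=
  ⟨11, ![1, 1, 1, 1, 1, 1, 1, 2, 10, 126, 16177], 40766040, by norm_num, by decide,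
    by decide +kernel, by decide +kernel, by decide +kernel, by norm_num⟩

end Pool.Agent.Results.MP_c4e411_nt.Counter
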